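import Pool.Agent.Y819.ZF.Stm

set_option autoImplicit false

/-!
# Project ZF: degrees of the chain multigraph of a forcing process (job ZF-DEG)
-/

namespace Pool.Agent.Y438.ZF

open Finset Pool.Agent.Helper929 Pool.Agent.H604R2.LEC Pool.Agent.Y819.ZF

open Classical in
theorem sum_at {f : ℕ} (c : Fin f) (q : Fin f → Fin f → ℕ) (hq : ∀ a b, q a b = q b a) :
    ∑ e ∈ univ.filter (fun e : Ed f => e.1.1 = c ∨ e.1.2 = c), q e.1.1 e.1.2 =
      ∑ c' ∈ univ.erase c, q c c' := by
  refine Finset.sum_bij' (fun e _ => if e.1.1 = c then e.1.2 else e.1.1)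
    (fun c' hc' => if h : c < c' then ⟨(c, c'), h⟩ else
      ⟨(c', c), lt_of_le_of_ne (not_lt.1 h) (Finset.ne_of_mem_erase hc')⟩) ?_ ?_ ?_ ?_ ?_
  · rintro ⟨⟨a, b⟩, hab⟩ he
    rw [mem_filter] at he
    have hab' : a < b := hab
    rw [mem_erase]
    refine ⟨?_, mem_univ _⟩
    simp only
    split_ifs with h1
    · rw [← h1]
      exact hab'.ne'
    · exact h1
  · intro c' hc'
    rw [mem_filter]
    refine ⟨mem_univ _, ?_⟩
    split_ifs with h1
    · exact Or.inl rfl
    · exact Or.inr rfl
  · rintro ⟨⟨a, b⟩, hab⟩ he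
    rw [mem_filter] at he
    have hab' : a < b := hab
    have he' : a = c ∨ b = c := he.2
    rcases he' with h1 | h1
    · subst h1
      simp [hab']
    · subst h1
      have h2 : ¬ a = b := hab'.ne
      have h3 : ¬ b < a := hab'.not_gt
      simp [h2, h3]
  · intro c' hc'
    have hne := Finset.ne_of_mem_erase hc'
    by_cases h1 : c < c'
    · simp [h1]
    · simp [h1, hne]
  · rintro ⟨⟨a, b⟩, hab⟩ he
    rw [mem_filter] at he
    have hab' : a < b := hab
    have he' : a = c ∨ b = c := he.2
    rcases he' with h1 | h1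
    · subst h1
      simp
    · subst h1
      have h2 : ¬ a = b := hab'.ne
      simp only [h2, if_false]
      exact hq _ _

section step

variable {V : Type} [Fintype V] [DecidableEq V] {f : ℕ} {F : SimpleGraph V} {Z : Finset V}
  {h : Fin f → V}

theorem codeg_inst {V : Type} [Fintype V] {f : ℕ} (F : SimpleGraph V) (Z : Finset V)
    (h : Fin f → V) (v : V) [DecidablePred fun w => Cur Z h w ∧ w ≠ v ∧ ¬ F.Adj v w] :
    codeg F Z h v = (univ.filter fun w => Cur Z h w ∧ w ≠ v ∧ ¬ F.Adj v w).card := by
  unfold codeg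
  congr!

omit [Fintype V] in
theorem cur_step (hi : Function.Injective h) (hZ : ∀ c, h c ∉ Z) {c : Fin f} {u : V} (hu : u ∈ Z)
    (w : V) : Cur (Z.erase u) (Function.update h c u) w ↔ Cur Z h w ∧ w ≠ h c := by
  constructor
  · rintro (hw | ⟨c', hc'⟩)
    · rw [mem_erase] at hw
      exact ⟨Or.inl hw.2, fun e => hZ c (e ▸ hw.2)⟩
    · by_cases h1 : c' = c
      · subst h1
        rw [Function.update_self] at hc'
        subst hc'
        exact ⟨Or.inl hu, fun e => hZ c' (e ▸ hu)⟩
      · rw [Function.update_of_ne h1] at hc'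
        subst hc'
        exact ⟨Or.inr ⟨c', rfl⟩, fun e => h1 (hi e)⟩
  · rintro ⟨hw | ⟨c', hc'⟩, hne⟩
    · by_cases h1 : w = u
      · exact Or.inr ⟨c, by rw [Function.update_self, h1]⟩
      · exact Or.inl (mem_erase.2 ⟨h1, hw⟩)
    · refine Or.inr ⟨c', ?_⟩
      have h1 : c' ≠ c := fun e => hne (by rw [← hc', e])
      rw [Function.update_of_ne h1, hc']

theorem codeg_step1 (hi : Function.Injective h) (hZ : ∀ c, h c ∉ Z) {c : Fin f} {u : V}
    (hu : u ∈ Z) {v : V} (hv : v ≠ h c) (hadj : ¬ F.Adj v (h c)) :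
    codeg F (Z.erase u) (Function.update h c u) v + 1 = codeg F Z h v := by
  classical
  rw [codeg_inst, codeg_inst]
  have hmem : h c ∈ univ.filter (fun w => Cur Z h w ∧ w ≠ v ∧ ¬ F.Adj v w) := by
    rw [mem_filter]
    exact ⟨mem_univ _, Or.inr ⟨c, rfl⟩, hv.symm, hadj⟩
  rw [← Finset.card_erase_add_one hmem]
  congr 2
  ext w
  rw [mem_filter, mem_erase, mem_filter, cur_step hi hZ hu]
  tauto

theorem codeg_step2 (hi : Function.Injective h) (hZ : ∀ c, h c ∉ Z) {c : Fin f} {u : V}
    (hu : u ∈ Z) {v : V} (hadj : F.Adj v (h c)) :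
    codeg F (Z.erase u) (Function.update h c u) v = codeg F Z h v := by
  classical
  rw [codeg_inst, codeg_inst]
  congr 1
  ext w
  rw [mem_filter, mem_filter, cur_step hi hZ hu]
  constructor
  · rintro ⟨-, ⟨h1, h2⟩, h3, h4⟩
    exact ⟨mem_univ _, h1, h3, h4⟩
  · rintro ⟨-, h1, h3, h4⟩
    refine ⟨mem_univ _, ⟨h1, ?_⟩, h3, h4⟩
    intro e
    exact h4 (e ▸ hadj)

open Classical in
theorem codeg_val (hi : Function.Injective h) (hZ : ∀ c, h c ∉ Z) (c : Fin f) :
    codeg F Z h (h c) = (Z.filter fun w => ¬ F.Adj (h c) w).card +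
      ∑ c' ∈ univ.erase c, (if ¬ F.Adj (h c) (h c') then 1 else 0) := by
  have e1 : ∑ c' ∈ univ.erase c, (if ¬ F.Adj (h c) (h c') then 1 else 0) =
      (((univ.erase c).filter fun c' => ¬ F.Adj (h c) (h c')).image h).card := by
    rw [Finset.card_image_of_injective _ hi, Finset.card_filter]
  rw [e1, ← Finset.card_union_of_disjoint]
  · rw [codeg_inst]
    congr 1
    ext w
    rw [mem_union, mem_filter, mem_filter, mem_image]
    constructor
    · rintro ⟨-, h1 | ⟨c', rfl⟩, h2, h3⟩
      · exact Or.inl ⟨h1, h3⟩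
      · refine Or.inr ⟨c', ?_, rfl⟩
        rw [mem_filter, mem_erase]
        exact ⟨⟨fun e => h2 (by rw [e]), mem_univ _⟩, h3⟩
    · rintro (⟨h1, h3⟩ | ⟨c', h1, rfl⟩)
      · exact ⟨mem_univ _, Or.inl h1, fun e => hZ c (e ▸ h1), h3⟩
      · rw [mem_filter, mem_erase] at h1
        exact ⟨mem_univ _, Or.inr ⟨c', rfl⟩, fun e => h1.1.1 (hi e), h1.2⟩
  · rw [Finset.disjoint_left]
    intro w hw hw'
    rw [mem_filter] at hw
    rw [mem_image] at hw'
    obtain ⟨c', -, rfl⟩ := hw'
    exact hZ c' hw.1

end step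

theorem deg : S_DEG := by
  classical
  intro V _ _ f F Z h m hi hZ hco hF
  induction hF with
  | done h =>
    intro c
    have e := sum_at c (fun a b => if F.Adj (h a) (h b) then 0 else 1) (fun a b => by
      simp only [F.adj_comm (h a) (h b)])
    refine Eq.trans ?_ (e.trans ?_)
    · refine Finset.sum_congr ?_ fun _ _ => ?_
      · congr
      · congr
    · rw [codeg_val hi hZ c, Finset.filter_empty, Finset.card_empty, zero_add]
      refine Finset.sum_congr rfl fun c' _ => ?_
      simp only [ite_not]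
  | step Z h c₀ u m hu hadj huniq hm ih =>
    have hZ' : ∀ c, Function.update h c₀ u c ∉ Z.erase u := by
      intro c hc
      rw [mem_erase] at hc
      by_cases h1 : c = c₀
      · subst h1
        rw [Function.update_self] at hc
        exact hc.1 rfl
      · rw [Function.update_of_ne h1] at hc
        exact hZ c hc.2
    have hi' : Function.Injective (Function.update h c₀ u) := by
      intro a b hab
      by_cases h1 : a = c₀
      · by_cases h2 : b = c₀
        · rw [h1, h2]
        · rw [h1, Function.update_self, Function.update_of_ne h2] at hab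
          exact absurd (hab ▸ hu) (hZ b)
      · by_cases h2 : b = c₀
        · rw [h2, Function.update_self, Function.update_of_ne h1] at hab
          exact absurd (hab ▸ hu) (hZ a)
        · rw [Function.update_of_ne h1, Function.update_of_ne h2] at hab
          exact hi hab
    have hco' : ∀ v ∈ Z.erase u, codeg F (Z.erase u) (Function.update h c₀ u) v =
        (Z.erase u).card - 1 := by
      intro v hv
      rw [mem_erase] at hv
      have h1 := codeg_step1 (F := F) hi hZ (c := c₀) hu (v := v) (fun e => hZ c₀ (e ▸ hv.2))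
        (fun hA => hv.1 (huniq v hv.2 hA.symm))
      rw [hco v hv.2] at h1
      rw [Finset.card_erase_of_mem hu]
      omega
    have IH := ih hi' hZ' hco'
    intro c
    have e := sum_at c (fun a b => if (a = c₀ ∨ b = c₀) ∧ ¬ F.Adj (h a) (h b) then 1 else 0)
      (fun a b => by
        simp only [F.adj_comm (h a) (h b), or_comm (a := a = c₀)])
    have hsplit : ∑ e ∈ univ.filter (fun e : Ed f => e.1.1 = c ∨ e.1.2 = c), (m e +
        if (e.1.1 = c₀ ∨ e.1.2 = c₀) ∧ ¬ F.Adj (h e.1.1) (h e.1.2) then 1 else 0) =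
        codeg F (Z.erase u) (Function.update h c₀ u) (Function.update h c₀ u c) +
        ∑ c' ∈ univ.erase c, (if (c = c₀ ∨ c' = c₀) ∧ ¬ F.Adj (h c) (h c') then 1 else 0) := by
      rw [Finset.sum_add_distrib, ← IH c]
      congr 1
    refine Eq.trans ?_ (hsplit.trans ?_)
    · congr!
    · by_cases hc : c = c₀
      · subst hc
        rw [Function.update_self, codeg_step2 hi hZ hu hadj.symm, hco u hu, codeg_val hi hZ c]
        have e2 : Z.filter (fun w => ¬ F.Adj (h c) w) = Z.erase u := by
          ext w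
          rw [mem_filter, mem_erase]
          constructor
          · rintro ⟨h1, h2⟩
            exact ⟨fun e => h2 (e ▸ hadj), h1⟩
          · rintro ⟨h1, h2⟩
            exact ⟨h2, fun h3 => h1 (huniq w h2 h3)⟩
        rw [e2, Finset.card_erase_of_mem hu]
        congr 1
        refine Finset.sum_congr rfl fun c' _ => ?_
        simp
      · rw [Function.update_of_ne hc]
        have hne : h c ≠ h c₀ := fun e => hc (hi e)
        rw [Finset.sum_eq_single c₀]
        · by_cases hA : F.Adj (h c) (h c₀)
          · rw [codeg_step2 hi hZ hu hA]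
            simp [hA]
          · rw [← codeg_step1 hi hZ hu hne hA]
            simp [hA]
        · intro b _ hb
          rw [if_neg]
          rintro ⟨h1 | h1, -⟩
          · exact hc h1
          · exact hb h1
        · intro h1
          exact absurd (mem_erase.2 ⟨fun e => hc e.symm, mem_univ _⟩) h1

end Pool.Agent.Y438.ZF
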