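import Pool.Agent.Y819.ZF.Stm
import Pool.Agent.H604R2.LEC.Gram

set_option autoImplicit false

/-!
# Project ZF: permuting the vertices multiplies the Pfaffian coefficient by the sign (job ZF-ALT)
-/

namespace Pool.Agent.Y438.ZF

open MvPolynomial Finset Pool.Agent.Helper929 Pool.Agent.H604R2.LEC Pool.Agent.Y819.ZF

theorem SM_skew (R : Type) [CommRing R] {n : ℕ} {E : Type} [Fintype E] (τ η : E → Fin n) :
    SM R τ η = skew (fun e => SM R τ η e.1.1 e.1.2) := by
  refine eq_skew _ ?_ ?_
  · intro i j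
    simp only [SM, Matrix.of_apply]
    rw [← Finset.sum_neg_distrib]
    refine Finset.sum_congr rfl fun e _ => ?_
    rw [neg_sub]
  · intro i
    simp only [SM, Matrix.of_apply, sub_self, Finset.sum_const_zero]

theorem SM_perm (R : Type) [CommRing R] {n : ℕ} {E : Type} [Fintype E] (τ η : E → Fin n)
    (σ : Equiv.Perm (Fin n)) : SM R (fun e => σ (τ e)) (fun e => σ (η e)) =
      ((1 : Matrix (Fin n) (Fin n) (MvPolynomial E R)).submatrix σ.symm id) * SM R τ η *
      ((1 : Matrix (Fin n) (Fin n) (MvPolynomial E R)).submatrix σ.symm id).transpose := by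
  ext1 i j
  have e1 : ∀ (M : Matrix (Fin n) (Fin n) (MvPolynomial E R)),
      (((1 : Matrix (Fin n) (Fin n) (MvPolynomial E R)).submatrix σ.symm id) * M *
      ((1 : Matrix (Fin n) (Fin n) (MvPolynomial E R)).submatrix σ.symm id).transpose) i j =
      M (σ.symm i) (σ.symm j) := by
    intro M
    simp only [Matrix.mul_apply, Matrix.submatrix_apply, Matrix.transpose_apply, id,
      Matrix.one_apply, ite_mul, one_mul, zero_mul, mul_ite, mul_one, mul_zero,
      Finset.sum_ite_eq, Finset.mem_univ, if_true]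
  rw [e1]
  simp only [SM, Matrix.of_apply]
  refine Finset.sum_congr rfl fun e _ => ?_
  simp only [← Equiv.eq_symm_apply]

theorem pf_perm (R : Type) [CommRing R] {n : ℕ} {E : Type} [Fintype E] (τ η : E → Fin n)
    (σ : Equiv.Perm (Fin n)) : pf n (SM R (fun e => σ (τ e)) (fun e => σ (η e))) =
      C ((((Equiv.Perm.sign σ : ℤˣ) : ℤ) : R)) * pf n (SM R τ η) := by
  rw [SM_perm]
  rw [SM_skew R τ η, pf_gram_ring, ← SM_skew R τ η]
  congr 1
  rw [Matrix.det_permute, Matrix.det_one, mul_one, Equiv.Perm.sign_symm, map_intCast]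

theorem alt : S_ALT := by
  intro R _ n d hd E _ τ η σ
  unfold cc
  rw [pf_perm, mul_pow, ← map_pow, coeff_C_mul]
  congr 1
  rw [← Int.cast_pow]
  congr 1
  rcases Int.units_eq_one_or (Equiv.Perm.sign σ) with h | h
  · rw [h]
    simp
  · rw [h]
    simp [hd.neg_one_pow]

end Pool.Agent.Y438.ZF
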